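import Pool.Agent.Helper58.QD.StF

set_option autoImplicit false

open Set Filter Topology MeasureTheory
open Helper62.LH Helper62.DSH Helper58.QD
open scoped ContDiff ENNReal

noncomputable section

namespace Pool.Agent.Helper16.QD

/-- one step of the iteration -/
private def stp {n j : ℕ} (μ : E n → Fk n (j + 1)) (Y : E n → E n) (w : E n → Fk n j) :
    E n → Fk n j :=
  fun x => pb (dY Y 1 x) (w (x + Y x)) + (-1 : ℝ) • hmt μ Y x

private lemma pb_id {n k : ℕ} (α : Fk n k) : pb (ContinuousLinearMap.id ℝ (E n)) α = α := by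
  ext v
  simp [pb]

private lemma pb_zero {n k : ℕ} (L : E n →L[ℝ] E n) : pb L (0 : Fk n k) = 0 := by
  ext v
  simp [pb]

/-- smoothness and derivative of the iterates -/
private lemma it_smooth (hHmt : SHmt) {n j : ℕ} {Y : E n → E n} (hY : ContDiff ℝ ∞ Y)
    {μ : E n → Fk n (j + 1)} {u : E n → Fk n j} (hμ : ContDiff ℝ ∞ μ) (hu : ContDiff ℝ ∞ u)
    (hd : ∀ x, extDeriv u x = μ x) (i : ℕ) :
    ContDiff ℝ ∞ ((stp μ Y)^[i] u) ∧ ∀ x, extDeriv ((stp μ Y)^[i] u) x = μ x := by
  have hcl : ∀ x, extDeriv μ x = 0 := by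
    have h1 : μ = extDeriv u := by
      funext x
      exact (hd x).symm
    have h2 : extDeriv (extDeriv u) = 0 := by
      refine extDeriv_extDeriv hu ?_
      rw [minSmoothness_of_isRCLikeNormedField]
      exact WithTop.coe_le_coe.2 le_top
    intro x
    rw [h1, h2]
    rfl
  have hH := (hHmt n j Y hY).1 μ hμ
  induction i with
  | zero => exact ⟨hu, hd⟩
  | succ i ih =>
    rw [Function.iterate_succ_apply']
    obtain ⟨ih1, ih2⟩ := ih
    have hP := (hHmt n j Y hY).2 _ ih1
    refine ⟨hP.1.add (hH.1.const_smul (-1 : ℝ)), fun x => ?_⟩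
    have h1 : extDeriv (stp μ Y ((stp μ Y)^[i] u)) x =
        extDeriv (fun z => pb (dY Y 1 z) ((stp μ Y)^[i] u (z + Y z))) x +
          (-1 : ℝ) • extDeriv (hmt μ Y) x := by
      have h2 := extDeriv_fun_add (x := x)
        (ω₁ := fun z => pb (dY Y 1 z) ((stp μ Y)^[i] u (z + Y z)))
        (ω₂ := fun z => (-1 : ℝ) • hmt μ Y z)
        (hP.1.differentiable (by simp) x) ((hH.1.const_smul (-1 : ℝ)).differentiable (by simp) x)
      have h3 : extDeriv (fun z => (-1 : ℝ) • hmt μ Y z) x = (-1 : ℝ) • extDeriv (hmt μ Y) x :=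
        extDeriv_smul (-1 : ℝ) (hmt μ Y)
      rw [h3] at h2
      exact h2
    rw [h1, hP.2 x, hH.2.1 hcl x, ih2]
    module

private lemma it_low {n j : ℕ} {Y : E n → E n} {μ : E n → Fk n (j + 1)} {u : E n → Fk n j}
    {x : E n} (h1 : Y x = 0) (h2 : fderiv ℝ Y x = 0) (i : ℕ) :
    ((stp μ Y)^[i] u) x = u x := by
  induction i with
  | zero => rfl
  | succ i ih =>
    rw [Function.iterate_succ_apply']
    have h3 : ∀ s : ℝ, dY Y s x = ContinuousLinearMap.id ℝ (E n) := by
      intro s
      rw [dY, h2]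
      ext v
      simp
    have h4 : hmt μ Y x = 0 := by
      have h5 : ∀ s : ℝ, pb (dY Y s x) ((μ (x + s • Y x)).curryLeft (Y x)) = 0 := by
        intro s
        rw [h1, map_zero, pb_zero]
      rw [hmt]
      simp only [h5]
      simp
    change pb (dY Y 1 x) (((stp μ Y)^[i] u) (x + Y x)) + (-1 : ℝ) • hmt μ Y x = u x
    rw [h4, h3, pb_id, h1, add_zero, ih, smul_zero, add_zero]

theorem hPul : SNna → SPbn → SHmt → SStp → SPul := by
  intro hNna hPbn hHmt hStp n j
  refine ⟨3 + 27 * 2 ^ (j + 1) * (j + 1), by positivity, ?_⟩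
  intro g Γ hg hΓ b T c ε hb hcpt hT hc hε hεT hHs hgs μ u hμ hu hd U W hU hW hu1 hμ1
  -- the cut-off
  set ζ : ℝ → ℝ := fun s => Real.smoothTransition (8 * (s - T / 2) / T) with hζd
  have hζs : ContDiff ℝ ∞ ζ := by
    refine Real.smoothTransition.contDiff.comp ?_
    fun_prop
  have hζm : Monotone ζ := by
    intro s t hst
    refine Real.smoothTransition.monotone ?_
    have : s - T / 2 ≤ t - T / 2 := by linarith
    gcongr
  have hζ01 : ∀ s, 0 ≤ ζ s ∧ ζ s ≤ 1 := fun s =>
    ⟨Real.smoothTransition.nonneg _, Real.smoothTransition.le_one _⟩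
  have hζ0 : ∀ s ≤ T / 2, ζ s = 0 := by
    intro s hs
    refine Real.smoothTransition.zero_of_nonpos ?_
    refine div_nonpos_of_nonpos_of_nonneg ?_ hT.le
    linarith
  have hζ1 : ∀ s, 5 * T / 8 ≤ s → ζ s = 1 := by
    intro s hs
    refine Real.smoothTransition.one_of_one_le ?_
    rw [le_div_iff₀ hT]
    linarith
  obtain ⟨hXs, hX2, hX0, h0, hh0, hst⟩ := hStp n g Γ hg hΓ b ζ (T / 2) ε ε hb hζs hζm hζ01 hζ0
    hε.le hε hHs {x | b x ≤ 6 * T} (hcpt _)
  set X := gX g ζ b with hXd
  -- the number of steps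
  obtain ⟨N, hN⟩ := exists_nat_ge (9 * T / (c ^ 2 * h0))
  have hNpos : (0 : ℝ) < N := lt_of_lt_of_le (by positivity) hN
  set h : ℝ := 9 * T / (N * c ^ 2) with hhd
  have hh : 0 < h := by positivity
  have hhh0 : h ≤ h0 := by
    rw [div_le_iff₀ (by positivity)] at hN ⊢
    nlinarith
  have hNh : N * h * c ^ 2 = 9 * T := by
    rw [hhd]
    field_simp
  set Y : E n → E n := fun y => h • X y with hYd
  have hYs : ContDiff ℝ ∞ Y := hXs.const_smul h
  have hST := hst h hh hhh0
  -- the iterates
  refine ⟨(stp μ Y)^[N] u, (it_smooth hHmt hYs hμ hu hd N).1, (it_smooth hHmt hYs hμ hu hd N).2,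
    fun x hx => ?_, fun x hx1 hx2 => ?_⟩
  · obtain ⟨hx3, hx4⟩ := hX0 x hx
    refine it_low ?_ ?_ N
    · change h • X x = 0
      rw [hx3, smul_zero]
    · have h1 : fderiv ℝ Y x = h • fderiv ℝ X x :=
        fderiv_const_smul (hXs.differentiable (by simp) x) h
      rw [h1, hx4]
      ext v
      simp
  -- the claim
  set D : ℝ := 2 ^ (j + 2) * (j + 1) / c with hDd
  have hD : 0 < D := by positivity
  set t : ℝ := 1 + 4 * h * ε with htd
  have ht1 : 1 ≤ t := by
    have : 0 ≤ 4 * h * ε := by positivity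
    linarith
  set e : ℝ := t ^ j with hed
  have he1 : 1 ≤ e := one_le_pow₀ ht1
  have key : ∀ i : ℕ, i ≤ N → ∀ x, T / 2 ≤ b x → b x ≤ 3 * T / 4 + i * h * c ^ 2 / 2 →
      nn g x (((stp μ Y)^[i] u) x) ≤ e ^ i * (U + D * W * (b x - T / 2)) := by
    intro i
    induction i with
    | zero =>
      intro _ x hx1 hx2
      have h1 : nn g x (u x) ≤ U := hu1 x hx1 (by simpa using hx2)
      have h2 : 0 ≤ D * W * (b x - T / 2) := mul_nonneg (by positivity) (by linarith)
      simp only [Function.iterate_zero, id, pow_zero, one_mul]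
      linarith
    | succ i ih =>
      intro hiN x hx1 hx2
      have hiN' : ((i : ℝ) + 1) ≤ N := by exact_mod_cast hiN
      have hx3 : b x ≤ 6 * T := by
        have h1 : ((i : ℝ) + 1) * (h * c ^ 2) ≤ N * (h * c ^ 2) :=
          mul_le_mul_of_nonneg_right hiN' (by positivity)
        push_cast at hx2
        nlinarith [hNh]
      obtain ⟨hA, hB, hC⟩ := hST x hx3
      have hgs1 : c ^ 2 ≤ gs g b x := hgs x hx1 hx3
      have hgs0 : 0 ≤ gs g b x := le_trans (by positivity) hgs1
      have hζx := hζ01 (b x)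
      set y := x + Y x with hyd
      have hy1 : b y ≤ b x - h / 2 * (ζ (b x) * gs g b x) := hB
      have hy0 : T / 2 ≤ b y := by
        have := (hA 1 (by simp)).2.1 hx1
        rw [one_smul] at this
        exact this
      have hyx : b y ≤ b x := by
        have : 0 ≤ h / 2 * (ζ (b x) * gs g b x) :=
          mul_nonneg (by positivity) (mul_nonneg hζx.1 hgs0)
        linarith
      have hy2 : b y ≤ 3 * T / 4 + i * h * c ^ 2 / 2 := by
        by_cases hc1 : b x ≤ 3 * T / 4 + i * h * c ^ 2 / 2
        · exact hyx.trans hc1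
        · rw [not_le] at hc1
          have h1 : 0 ≤ (i : ℝ) * h * c ^ 2 / 2 := by positivity
          have h2 : ζ (b x) = 1 := hζ1 _ (by linarith)
          rw [h2, one_mul] at hy1
          have h3 : h / 2 * c ^ 2 ≤ h / 2 * gs g b x :=
            mul_le_mul_of_nonneg_left hgs1 (by positivity)
          push_cast at hx2
          have h4 : ((i : ℝ) + 1) * h * c ^ 2 / 2 = i * h * c ^ 2 / 2 + h / 2 * c ^ 2 := by ring
          linarith
      have hih := ih (by omega) y hy0 hy2
      -- the pull back
      have hP1 : nn g x (pb (dY Y 1 x) (((stp μ Y)^[i] u) y)) ≤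
          e * nn g y (((stp μ Y)^[i] u) y) := by
        have h1 := (hPbn n j g hg x y).1 (dY Y 1 x) (√t) (Real.sqrt_nonneg _) (fun v => by
          rw [Real.sq_sqrt (by linarith)]
          have h2 := hC v
          have h3 : 1 + 2 * h * (ε + ε) = t := by rw [htd]; ring
          rw [h3] at h2
          exact h2) (((stp μ Y)^[i] u) y)
        refine h1.trans (mul_le_mul_of_nonneg_right ?_ ?_)
        · refine pow_le_pow_left₀ (Real.sqrt_nonneg _) ?_ _
          rw [Real.sqrt_le_left (by linarith)]
          nlinarith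
        · exact ((hNna n j g hg y).1 _).2.2
      -- the homotopy term
      have hP2 : nn g x (hmt μ Y x) ≤ D * W * (b x - b y) := by
        refine (hNna n j g hg x).2.2.2.1 _ _ (((hHmt n j Y hYs).1 μ hμ).2.2 x) ?_
        intro s hs
        obtain ⟨hA1, hA2, hA3, hA4⟩ := hA s hs
        set z := x + s • Y x with hzd
        have hz1 : T / 2 ≤ b z := hA2 hx1
        have hz2 : b z ≤ 6 * T := hA1.trans hx3
        have h1 := (hPbn n j g hg x z).1 (dY Y s x) 2 (by norm_num) (fun v => by
          have := hA3 v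
          norm_num
          exact this) ((μ z).curryLeft (Y x))
        have h2 := (hPbn n j g hg x z).2 (μ z) (Y x)
        have h3 : nn g z (μ z) ≤ W := hμ1 z hz1 hz2
        have h4 : √(g z (Y x) (Y x)) ≤ 2 * h * (ζ (b x) * √(gs g b x)) := by
          refine Real.sqrt_le_iff.2 ⟨mul_nonneg (by positivity)
            (mul_nonneg hζx.1 (Real.sqrt_nonneg _)), ?_⟩
          have h5 : g z (Y x) (Y x) = h ^ 2 * g z (X x) (X x) := by
            change g z (h • X x) (h • X x) = _
            rw [map_smul, map_smul, smul_apply, smul_eq_mul, smul_eq_mul]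
            ring
          rw [h5]
          have h6 : g z (X x) (X x) ≤ 4 * (ζ (b x) ^ 2 * gs g b x) := by
            rw [← hX2 x]
            exact hA4
          have h7 : (2 * h * (ζ (b x) * √(gs g b x))) ^ 2 =
              h ^ 2 * (4 * (ζ (b x) ^ 2 * gs g b x)) := by
            rw [mul_pow, mul_pow, mul_pow, Real.sq_sqrt hgs0]
            ring
          rw [h7]
          exact mul_le_mul_of_nonneg_left h6 (by positivity)
        have h5 : c * √(gs g b x) ≤ gs g b x := by
          have h6 : c ≤ √(gs g b x) := Real.le_sqrt_of_sq_le hgs1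
          calc c * √(gs g b x) ≤ √(gs g b x) * √(gs g b x) :=
                mul_le_mul_of_nonneg_right h6 (Real.sqrt_nonneg _)
            _ = gs g b x := Real.mul_self_sqrt hgs0
        calc nn g x (pb (dY Y s x) ((μ z).curryLeft (Y x)))
            ≤ 2 ^ j * nn g z ((μ z).curryLeft (Y x)) := h1
          _ ≤ 2 ^ j * ((j + 1) * √(g z (Y x) (Y x)) * nn g z (μ z)) := by gcongr
          _ ≤ 2 ^ j * ((j + 1) * (2 * h * (ζ (b x) * √(gs g b x))) * W) := by
              have h8 : 0 ≤ 2 * h * (ζ (b x) * √(gs g b x)) :=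
                le_trans (Real.sqrt_nonneg _) h4
              have h9 : 0 ≤ nn g z (μ z) := ((hNna n (j + 1) g hg z).1 _).2.2
              refine mul_le_mul_of_nonneg_left ?_ (by positivity)
              refine mul_le_mul ?_ h3 h9 (by positivity)
              exact mul_le_mul_of_nonneg_left h4 (by positivity)
          _ = (2 ^ (j + 2) * (j + 1) / c) * W * (h / 2 * (ζ (b x) * (c * √(gs g b x)))) := by
              field_simp
              ring
          _ ≤ D * W * (h / 2 * (ζ (b x) * gs g b x)) := by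
              have h8 : ζ (b x) * (c * √(gs g b x)) ≤ ζ (b x) * gs g b x :=
                mul_le_mul_of_nonneg_left h5 hζx.1
              gcongr
          _ ≤ D * W * (b x - b y) := by
              refine mul_le_mul_of_nonneg_left ?_ (by positivity)
              linarith
      -- the sum
      rw [Function.iterate_succ_apply']
      have hsum := (hNna n j g hg x).2.1 (pb (dY Y 1 x) (((stp μ Y)^[i] u) y))
        ((-1 : ℝ) • hmt μ Y x)
      have hneg := (hNna n j g hg x).2.2.1 (-1) (hmt μ Y x)
      rw [abs_neg, abs_one, one_mul] at hneg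
      rw [hneg] at hsum
      have h6 : e * nn g y (((stp μ Y)^[i] u) y) ≤
          e * (e ^ i * (U + D * W * (b y - T / 2))) :=
        mul_le_mul_of_nonneg_left hih (by linarith)
      have h7 : (1 : ℝ) ≤ e ^ (i + 1) := one_le_pow₀ he1
      have h8 : D * W * (b x - b y) ≤ e ^ (i + 1) * (D * W * (b x - b y)) :=
        le_mul_of_one_le_left (mul_nonneg (by positivity) (by linarith)) h7
      have h9 : e * (e ^ i * (U + D * W * (b y - T / 2))) + e ^ (i + 1) * (D * W * (b x - b y)) =
          e ^ (i + 1) * (U + D * W * (b x - T / 2)) := by ring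
      change nn g x (pb (dY Y 1 x) (((stp μ Y)^[i] u) (x + Y x)) + (-1 : ℝ) • hmt μ Y x) ≤ _
      linarith
  -- the end
  have hx3 : b x ≤ 3 * T / 4 + N * h * c ^ 2 / 2 := by
    rw [hNh]
    linarith
  have h1 := key N le_rfl x hx1 hx3
  have h2 : e ^ N ≤ 3 := by
    have h3 : e ^ N ≤ Real.exp 1 := by
      calc e ^ N = t ^ (j * N) := by rw [hed, pow_mul]
        _ ≤ Real.exp (4 * h * ε) ^ (j * N) := by
            refine pow_le_pow_left₀ (by linarith) ?_ _
            have := Real.add_one_le_exp (4 * h * ε)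
            linarith
        _ = Real.exp ((j * N : ℕ) * (4 * h * ε)) := by rw [← Real.exp_nat_mul]
        _ ≤ Real.exp 1 := by
            refine Real.exp_le_exp.2 ?_
            push_cast
            have h4 : (j : ℝ) * N * (4 * h * ε) * c ^ 2 = 36 * j * T * ε := by
              calc (j : ℝ) * N * (4 * h * ε) * c ^ 2 = 4 * j * ε * (N * h * c ^ 2) := by ring
                _ = 36 * j * T * ε := by rw [hNh]; ring
            have h5 : 36 * (j : ℝ) * T * ε ≤ c ^ 2 := by
              have h6 : 0 ≤ ε * T := by positivity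
              have h7 : 0 ≤ (j : ℝ) := Nat.cast_nonneg j
              nlinarith [mul_nonneg h6 h7]
            have hc2 : 0 < c ^ 2 := by positivity
            by_contra hcon
            rw [not_le] at hcon
            nlinarith
    have := Real.exp_one_lt_d9
    linarith
  have h3 : U + D * W * (b x - T / 2) ≤ U + D * W * (9 * T / 2) := by
    have : D * W * (b x - T / 2) ≤ D * W * (9 * T / 2) :=
      mul_le_mul_of_nonneg_left (by linarith) (by positivity)
    linarith
  have h4 : 0 ≤ U + D * W * (9 * T / 2) := by positivity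
  have h5 : 0 ≤ U + D * W * (b x - T / 2) := by
    have : 0 ≤ D * W * (b x - T / 2) := mul_nonneg (by positivity) (by linarith)
    linarith
  calc nn g x (((stp μ Y)^[N] u) x) ≤ e ^ N * (U + D * W * (b x - T / 2)) := h1
    _ ≤ 3 * (U + D * W * (9 * T / 2)) := by
        refine mul_le_mul h2 h3 h5 (by norm_num)
    _ = 3 * U + 27 * 2 ^ (j + 1) * (j + 1) * (T / c * W) := by
        rw [hDd, pow_succ 2 (j + 1)]
        field_simp
        ring
    _ ≤ (3 + 27 * 2 ^ (j + 1) * (j + 1)) * (U + T / c * W) := by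
        have h6 : 0 ≤ 27 * 2 ^ (j + 1) * ((j : ℝ) + 1) * U := by positivity
        have h7 : 0 ≤ 3 * (T / c * W) := by positivity
        nlinarith

end Pool.Agent.Helper16.QD
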