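import Pool.Agent.Helper58.QD.StS

set_option autoImplicit false

open Set Filter Topology MeasureTheory
open Helper62.LH Helper62.DSH Helper58.QD
open scoped ContDiff ENNReal

noncomputable section

namespace Pool.Agent.Helper16.QD

private lemma Altn_add {n j : ℕ} {s t : Tn n j} (hs : Altn s) (ht : Altn t) : Altn (s + t) := by
  intro I σ
  rw [Pi.add_apply, Pi.add_apply, hs I σ, ht I σ]
  ring

private lemma Altn_smul {n j : ℕ} (c : ℝ) {t : Tn n j} (ht : Altn t) : Altn (c • t) := by
  intro I σ
  rw [Pi.smul_apply, Pi.smul_apply, ht I σ, smul_eq_mul, smul_eq_mul]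
  ring

private lemma Altn_zero {n j : ℕ} : Altn (0 : Tn n j) := by
  intro I σ
  simp

/-- the smooth alternating families -/
private def Vs (n m : ℕ) : Submodule ℝ (E n → Tn n m) where
  carrier := {u | ContDiff ℝ ∞ u ∧ Al u}
  add_mem' := fun {_ _} ha hb => ⟨ha.1.add hb.1, fun x => Altn_add (ha.2 x) (hb.2 x)⟩
  zero_mem' := ⟨contDiff_const, fun _ => Altn_zero⟩
  smul_mem' := fun c _ ha => ⟨ha.1.const_smul c, fun x => Altn_smul c (ha.2 x)⟩

private lemma dF_lin (hDer : TDer) {n m : ℕ} {g : E n → Bl n} {Γ : E n → Bm n}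
    {F : Fin n → E n → E n} {G : E n → Fin n → Fin n → Fin n → ℝ} (hF : Frm g Γ F G)
    {a b : E n → Tn n m} (ha : ContDiff ℝ ∞ a) (hb : ContDiff ℝ ∞ b) (r t : ℝ) (x : E n) :
    dF F G (fun y => r • a y + t • b y) x = r • dF F G a x + t • dF F G b x := by
  have h := ((hDer n m g Γ F G hF).2.2.2.2.2.1 2 ![r, t] ![a, b] (by
    intro i
    fin_cases i
    · exact ha
    · exact hb) x).2
  simpa [Fin.sum_univ_two] using h

private lemma dF_sum (hDer : TDer) {n m M : ℕ} {g : E n → Bl n} {Γ : E n → Bm n}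
    {F : Fin n → E n → E n} {G : E n → Fin n → Fin n → Fin n → ℝ} (hF : Frm g Γ F G)
    {u : Fin M → E n → Tn n m} (hu : ∀ i, ContDiff ℝ ∞ (u i)) (c : Fin M → ℝ) (x : E n) :
    dF F G (fun y => ∑ i, c i • u i y) x = ∑ i, c i • dF F G (u i) x :=
  ((hDer n m g Γ F G hF).2.2.2.2.2.1 M c u hu x).2

/-- the closed families -/
private def Ds (hDer : TDer) (n m : ℕ) (g : E n → Bl n) (Γ : E n → Bm n)
    (F : Fin n → E n → E n) (G : E n → Fin n → Fin n → Fin n → ℝ) (hF : Frm g Γ F G) :
    Submodule ℝ (Vs n m) where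
  carrier := {u | ∀ x, dF F G (u : E n → Tn n m) x = 0}
  add_mem' := by
    intro a b ha hb x
    have h := dF_lin hDer hF a.2.1 b.2.1 1 1 x
    simp only [one_smul] at h
    change dF F G (fun y => (a : E n → Tn n m) y + (b : E n → Tn n m) y) x = 0
    rw [h, ha x, hb x, add_zero]
  zero_mem' := by
    intro x
    have h := dF_sum hDer (M := 0) hF (u := fun i : Fin 0 => (fun _ => (0 : Tn n m)))
      (fun _ => contDiff_const) (fun _ => 0) x
    simp only [Finset.univ_eq_empty, Finset.sum_empty] at h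
    exact h
  smul_mem' := by
    intro c a ha x
    have h := dF_lin hDer hF a.2.1 a.2.1 c 0 x
    simp only [zero_smul, add_zero] at h
    change dF F G (fun y => c • (a : E n → Tn n m) y) x = 0
    rw [h, ha x, smul_zero]

theorem hQsx : StDlv → TNrm → TDer → SGrw → SQuf → SQsx := by
  intro hDlv hNrm hDer hGrw hQuf n m g Γ F G hg hΓ hF p b β κ₀ r0 hB hL M P hP s t
  have hcpt : IsCompact (An β s t) := (hGrw n g Γ hg p b β κ₀ r0 hB hL).2.1 s t
  obtain ⟨hvs, hvp, -⟩ := hDlv n g Γ hg hΓ
  set S := An β s t with hS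
  -- integrability
  have hint : ∀ a b : E n → Tn n m, ContDiff ℝ ∞ a → ContDiff ℝ ∞ b →
      IntegrableOn (fun x => ipt (a x) (b x) * vol g x) S := by
    intro a b ha hb
    refine ContinuousOn.integrableOn_compact hcpt (Continuous.continuousOn ?_)
    have ha' : Continuous a := ha.continuous
    have hb' : Continuous b := hb.continuous
    have hv' : Continuous (vol g) := hvs.continuous
    unfold ipt
    fun_prop
  set q : Vs n m → Vs n m → ℝ := fun a b =>
    ∫ x in S, ipt ((a : E n → Tn n m) x) ((b : E n → Tn n m) x) * vol g x with hq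
  have hsym : ∀ x y, q x y = q y x := by
    intro x y
    simp only [hq]
    congr 1
    funext z
    congr 1
    unfold ipt
    congr 1
    exact Finset.sum_congr rfl fun I _ => mul_comm _ _
  have hadd : ∀ x y z, q (x + y) z = q x z + q y z := by
    intro x y z
    simp only [hq]
    rw [← integral_add (hint _ _ x.2.1 z.2.1) (hint _ _ y.2.1 z.2.1)]
    congr 1
    funext w
    rw [← add_mul]
    congr 1
    unfold ipt
    rw [← add_div]
    congr 1
    rw [← Finset.sum_add_distrib]
    refine Finset.sum_congr rfl fun I _ => ?_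
    change ((x : E n → Tn n m) w I + (y : E n → Tn n m) w I) * (z : E n → Tn n m) w I = _
    ring
  have hsmul : ∀ (c : ℝ) x y, q (c • x) y = c * q x y := by
    intro c x y
    simp only [hq]
    rw [← integral_const_mul]
    congr 1
    funext w
    rw [← mul_assoc]
    congr 1
    unfold ipt
    rw [← mul_div_assoc]
    congr 1
    rw [Finset.mul_sum]
    refine Finset.sum_congr rfl fun I _ => ?_
    change (c * (x : E n → Tn n m) w I) * (y : E n → Tn n m) w I = _
    ring
  have hnn : ∀ x, 0 ≤ q x x := by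
    intro x
    simp only [hq]
    refine integral_nonneg fun w => ?_
    exact mul_nonneg ((hNrm n m).1 ((x : E n → Tn n m) w)).1 (hvp w).le
  -- primitives
  choose u hus hua hud using fun i => (hP i).prim
  let U : Fin M → Vs n m := fun i => ⟨u i, hus i, hua i⟩
  obtain ⟨A, hA1, hA2, hA3, hA4⟩ := hQuf M (Vs n m) q hsym hadd hsmul hnn
    (Ds hDer n m g Γ F G hF) U
  have hcoe : ∀ (c : Fin M → ℝ) (d : Vs n m),
      ((∑ i, c i • U i + d : Vs n m) : E n → Tn n m) =
        fun x => (∑ i, c i • u i x) + (d : E n → Tn n m) x := by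
    intro c d
    funext x
    rw [Submodule.coe_add, Submodule.coe_sum, Pi.add_apply, Finset.sum_apply]
    rfl
  have hsumS : ∀ c : Fin M → ℝ, ContDiff ℝ ∞ (fun x => ∑ i, c i • u i x) := fun c =>
    ContDiff.sum fun i _ => (hus i).const_smul (c i)
  have hsumA : ∀ c : Fin M → ℝ, Al (fun x => ∑ i, c i • u i x) := by
    intro c x I σ
    change (∑ i, c i • u i x) (I ∘ σ) = _ * (∑ i, c i • u i x) I
    rw [Finset.sum_apply, Finset.sum_apply, Finset.mul_sum]
    refine Finset.sum_congr rfl fun i _ => ?_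
    rw [Pi.smul_apply, Pi.smul_apply, hua i x I σ, smul_eq_mul, smul_eq_mul]
    ring
  refine ⟨A, hA1, hA2, ?_, ?_⟩
  · intro c w hw
    obtain ⟨hw1, hw2, hw3⟩ := hw
    have hd1 : ContDiff ℝ ∞ (fun x => w x - ∑ i, c i • u i x) := hw1.sub (hsumS c)
    let d : Vs n m := ⟨fun x => w x - ∑ i, c i • u i x, hd1, by
      intro x
      have h1 : w x - ∑ i, c i • u i x = w x + (-1 : ℝ) • ∑ i, c i • u i x := by
        rw [neg_one_smul, sub_eq_add_neg]
      change Altn (w x - ∑ i, c i • u i x)
      rw [h1]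
      exact Altn_add (hw2 x) (Altn_smul _ (hsumA c x))⟩
    have hdD : d ∈ Ds hDer n m g Γ F G hF := by
      intro x
      have h := dF_lin hDer hF hw1 (hsumS c) 1 (-1) x
      have h1 : (fun y => (1 : ℝ) • w y + (-1 : ℝ) • ∑ i, c i • u i y) =
          fun y => w y - ∑ i, c i • u i y := by
        funext y
        rw [one_smul, neg_one_smul, sub_eq_add_neg]
      rw [h1] at h
      change dF F G (fun y => w y - ∑ i, c i • u i y) x = 0
      rw [h, dF_sum hDer hF hus, hw3 x, one_smul, neg_one_smul]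
      simp only [hud]
      exact add_neg_cancel _
    have h2 := hA3 c d hdD
    have h3 : ((∑ i, c i • U i + d : Vs n m) : E n → Tn n m) = w := by
      rw [hcoe]
      funext x
      change (∑ i, c i • u i x) + (w x - ∑ i, c i • u i x) = w x
      abel
    simp only [hq, h3] at h2
    exact h2
  · intro c κ hκ
    obtain ⟨d, hdD, hd⟩ := hA4 c κ hκ
    have h3 := hcoe c d
    refine ⟨((∑ i, c i • U i + d : Vs n m) : E n → Tn n m), ⟨?_, ?_, ?_⟩, hd⟩
    · exact (∑ i, c i • U i + d : Vs n m).2.1
    · exact (∑ i, c i • U i + d : Vs n m).2.2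
    · intro x
      rw [h3]
      have h := dF_lin hDer hF (hsumS c) d.2.1 1 1 x
      simp only [one_smul] at h
      rw [h, dF_sum hDer hF hus, hdD x, add_zero]
      simp only [hud]

end Pool.Agent.Helper16.QD
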